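import Mathlib

open Filter Topology

namespace Pool.Agent.Results.MP_7a7a2a_an.Counter

section Defs
variable {E : Type} [NormedAddCommGroup E] [InnerProductSpace ℝ E] [CompleteSpace E]

/-- Bouligand tangent cone of `X` at `x`. -/
def tanCone (X : Set E) (x : E) : Set E :=
  {v | ∃ (t : ℕ → ℝ) (w : ℕ → E), (∀ k, 0 < t k) ∧ Antitone t ∧ Tendsto t atTop (𝓝 0) ∧
    Tendsto w atTop (𝓝 v) ∧ ∀ k, x + t k • w k ∈ X}

/-- `p` is a nearest point of `K` to `w`. -/
def IsNearest (K : Set E) (w p : E) : Prop := p ∈ K ∧ ∀ q ∈ K, ‖w - p‖ ≤ ‖w - q‖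

/-- The stationarity measure `s_f(x)`: the (common) norm of the nearest points of the tangent
cone to `-∇ f x`. -/
noncomputable def statMeasure (X : Set E) (f : E → ℝ) (x : E) : ℝ :=
  sInf {r | ∃ p, IsNearest (tanCone X x) (-gradient f x) p ∧ r = ‖p‖}

/-- `x` is stationary for `min_X f`. -/
def IsStationary (X : Set E) (f : E → ℝ) (x : E) : Prop :=
  ∀ v ∈ tanCone X x, 0 ≤ inner ℝ (gradient f x) v

/-- No apocalypse exists on `X`, for any `f` that is `C¹` on a neighbourhood of `X`. -/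
def ApocalypseFree (X : Set E) : Prop :=
  ∀ (f : E → ℝ), (∃ U, IsOpen U ∧ X ⊆ U ∧ ContDiffOn ℝ 1 f U) →
    ∀ (x : E) (y : ℕ → E), x ∈ X → (∀ k, y k ∈ X) → Tendsto y atTop (𝓝 x) →
      Tendsto (fun k => statMeasure X f (y k)) atTop (𝓝 0) → IsStationary X f x

/-- One P²GD step with Armijo backtracking from `x` to `y`: `g` is a projection of `-∇ f x` on the
tangent cone, `y` is a projection on `X` of `x + a b ^ j g` that passes the Armijo test, and for
every earlier trial `i < j` every projection on `X` of `x + a b ^ i g` fails it. -/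
def IsStep (X : Set E) (f : E → ℝ) (a b c : ℝ) (x y : E) : Prop :=
  ∃ g, IsNearest (tanCone X x) (-gradient f x) g ∧ ∃ j : ℕ,
    IsNearest X (x + (a * b ^ j) • g) y ∧
    f y ≤ f x - c * (a * b ^ j) * statMeasure X f x ^ 2 ∧
    ∀ i < j, ∀ z, IsNearest X (x + (a * b ^ i) • g) z →
      ¬ f z ≤ f x - c * (a * b ^ i) * statMeasure X f x ^ 2

end Defs

section General
variable {E : Type} [NormedAddCommGroup E] [InnerProductSpace ℝ E] [CompleteSpace E]

omit [CompleteSpace E] in
lemma mem_tanCone_of {X : Set E} {x v : E} {e : ℝ} (he : 0 < e)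
    (h : ∀ t, 0 < t → t ≤ e → x + t • v ∈ X) : v ∈ tanCone X x := by
  refine ⟨fun k => e * (1 / ((k : ℝ) + 1)), fun _ => v, fun k => by positivity, ?_, ?_,
    tendsto_const_nhds, fun k => h _ (by positivity) ?_⟩
  · intro i j hij
    have : (i : ℝ) ≤ j := by exact_mod_cast hij
    apply mul_le_mul_of_nonneg_left _ he.le
    apply one_div_le_one_div_of_le (by positivity)
    linarith
  · have := tendsto_one_div_add_atTop_nhds_zero_nat (𝕜 := ℝ)
    simpa using this.const_mul e
  · have : (1 : ℝ) / ((k : ℝ) + 1) ≤ 1 := by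
      rw [div_le_one (by positivity)]
      have : (0 : ℝ) ≤ k := Nat.cast_nonneg k
      linarith
    nlinarith

lemma apoc_of_convex {X : Set E} (hX : Convex ℝ X)
    (hex : ∀ x ∈ X, ∀ w, ∃ p, IsNearest (tanCone X x) w p) : ApocalypseFree X := by
  rintro f ⟨U, hU, hXU, hf⟩ x y hx hy hyx hs
  have hcont : ContinuousAt (gradient f) x := by
    have h1 : ContDiffAt ℝ 1 f x := hf.contDiffAt (hU.mem_nhds (hXU hx))
    have h2 : ContinuousAt (fderiv ℝ f) x := (h1.fderiv_right (m := 0) (by simp)).continuousAt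
    exact (InnerProductSpace.toDual ℝ E).symm.continuous.continuousAt.comp h2
  have hp : ∀ k : ℕ, ∃ p, IsNearest (tanCone X (y k)) (-gradient f (y k)) p ∧
      ‖p‖ < statMeasure X f (y k) + 1 / ((k : ℝ) + 1) := by
    intro k
    obtain ⟨p, hp⟩ := hex (y k) (hy k) (-gradient f (y k))
    have hne : {r | ∃ p, IsNearest (tanCone X (y k)) (-gradient f (y k)) p ∧ r = ‖p‖}.Nonempty :=
      ⟨‖p‖, p, hp, rfl⟩
    have hlt : statMeasure X f (y k) < statMeasure X f (y k) + 1 / ((k : ℝ) + 1) := by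
      have : (0 : ℝ) < 1 / ((k : ℝ) + 1) := by positivity
      linarith
    obtain ⟨r, ⟨q, hq, rfl⟩, hr⟩ := exists_lt_of_csInf_lt hne hlt
    exact ⟨q, hq, hr⟩
  choose p hp1 hp2 using hp
  have hp0 : Tendsto p atTop (𝓝 0) := by
    rw [tendsto_zero_iff_norm_tendsto_zero]
    have h1 := hs.add (tendsto_one_div_add_atTop_nhds_zero_nat (𝕜 := ℝ))
    rw [add_zero] at h1
    exact squeeze_zero (fun _ => norm_nonneg _) (fun k => (hp2 k).le) h1
  have hg : Tendsto (fun k => -gradient f (y k)) atTop (𝓝 (-gradient f x)) :=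
    (hcont.tendsto.comp hyx).neg
  have key : ∀ z ∈ X, 0 ≤ inner ℝ (gradient f x) (z - x) := by
    intro z hz
    have h1 : ∀ t : ℝ, 0 < t → ‖-gradient f x‖ ≤ ‖-gradient f x - t • (z - x)‖ := by
      intro t ht
      have hm : ∀ k, t • (z - y k) ∈ tanCone X (y k) := by
        intro k
        refine mem_tanCone_of (e := 1 / t) (by positivity) ?_
        intro s hs0 hs1
        have hst : s * t ≤ 1 := by
          rw [le_div_iff₀ ht] at hs1
          exact hs1
        rw [smul_smul]
        exact hX.add_smul_sub_mem (hy k) hz ⟨by positivity, hst⟩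
      have l1 : Tendsto (fun k => ‖-gradient f (y k) - p k‖) atTop (𝓝 ‖-gradient f x - 0‖) :=
        (hg.sub hp0).norm
      have l2 : Tendsto (fun k => ‖-gradient f (y k) - t • (z - y k)‖) atTop
          (𝓝 ‖-gradient f x - t • (z - x)‖) :=
        (hg.sub ((tendsto_const_nhds.sub hyx).const_smul t)).norm
      rw [sub_zero] at l1
      exact le_of_tendsto_of_tendsto' l1 l2 fun k => (hp1 k).2 _ (hm k)
    by_contra hneg
    push Not at hneg
    set A := inner ℝ (gradient f x) (z - x) with hA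
    set B := ‖z - x‖ ^ 2 with hB
    have hB0 : 0 ≤ B := by positivity
    have ht : 0 < -A / (B + 1) := by
      apply div_pos <;> linarith
    have h2 := h1 _ ht
    have h3 : ‖-gradient f x‖ ^ 2 ≤ ‖-gradient f x - (-A / (B + 1)) • (z - x)‖ ^ 2 :=
      pow_le_pow_left₀ (norm_nonneg _) h2 2
    rw [norm_sub_sq_real, inner_smul_right, inner_neg_left, norm_smul, mul_pow, Real.norm_eq_abs,
      sq_abs, ← hA, ← hB] at h3
    set t := -A / (B + 1) with htdef
    have h4 : t * (B + 1) = -A := by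
      rw [htdef]
      field_simp
    nlinarith [mul_pos ht ht]
  rintro v ⟨t, w, ht0, -, -, hw, hm⟩
  have h1 : ∀ k, 0 ≤ inner ℝ (gradient f x) (w k) := by
    intro k
    have := key _ (hm k)
    rw [add_sub_cancel_left, inner_smul_right] at this
    exact nonneg_of_mul_nonneg_right (by simpa [mul_comm] using this) (ht0 k) |> fun h => h
  exact ge_of_tendsto' (tendsto_const_nhds.inner hw) h1

end General

section Concrete

abbrev P := EuclideanSpace ℝ (Fin 2)

def Q : Set P := {z | z 0 ≤ 2 ∧ 0 ≤ z 1}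

noncomputable def av : P := !₂[-1 / 2, 1]

noncomputable def ff (z : P) : ℝ := inner ℝ av z

lemma ff_eq (z : P) : ff z = z 1 - z 0 / 2 := by
  simp [ff, av, PiLp.inner_apply, Fin.sum_univ_two]
  ring

lemma grad_ff (z : P) : gradient ff z = av := by
  apply HasGradientAt.gradient
  rw [hasGradientAt_iff_hasFDerivAt]
  have h := (innerSL ℝ av).hasFDerivAt (x := z)
  have e : (InnerProductSpace.toDual ℝ P) av = innerSL ℝ av := by
    ext v
    simp
  rw [e]
  exact h

lemma c0 : Continuous fun z : P => z 0 := by fun_prop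
lemma c1 : Continuous fun z : P => z 1 := by fun_prop

lemma Q_closed : IsClosed Q :=
  (isClosed_le c0 continuous_const).inter (isClosed_le continuous_const c1)

lemma Q_convex : Convex ℝ Q := by
  intro x hx y hy a b ha hb hab
  obtain ⟨hx0, hx1⟩ := hx
  obtain ⟨hy0, hy1⟩ := hy
  constructor
  · simp only [PiLp.add_apply, PiLp.smul_apply, smul_eq_mul]
    nlinarith
  · simp only [PiLp.add_apply, PiLp.smul_apply, smul_eq_mul]
    positivity

lemma tan_Q {x : P} (hx : x ∈ Q) :
    tanCone Q x = {v | (x 0 = 2 → v 0 ≤ 0) ∧ (x 1 = 0 → 0 ≤ v 1)} := by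
  ext v
  constructor
  · rintro ⟨t, w, ht0, -, -, hw, hm⟩
    constructor
    · intro h
      refine le_of_tendsto' ((c0.tendsto v).comp hw) fun k => ?_
      have := (hm k).1
      simp only [PiLp.add_apply, PiLp.smul_apply, smul_eq_mul, h] at this
      have h2 := ht0 k
      simp only [Function.comp]
      nlinarith
    · intro h
      refine ge_of_tendsto' ((c1.tendsto v).comp hw) fun k => ?_
      have := (hm k).2
      simp only [PiLp.add_apply, PiLp.smul_apply, smul_eq_mul, h] at this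
      have h2 := ht0 k
      simp only [Function.comp]
      nlinarith
  · rintro ⟨h0, h1⟩
    obtain ⟨hx0, hx1⟩ := hx
    obtain ⟨e0, he0, H0⟩ : ∃ e : ℝ, 0 < e ∧ ∀ t, 0 < t → t ≤ e → x 0 + t * v 0 ≤ 2 := by
      rcases hx0.eq_or_lt with h | h
      · exact ⟨1, one_pos, fun t ht _ => by have := h0 h; nlinarith⟩
      · refine ⟨(2 - x 0) / (|v 0| + 1), div_pos (by linarith) (by positivity), fun t ht h2 => ?_⟩
        rw [le_div_iff₀ (by positivity)] at h2
        have := le_abs_self (v 0)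
        nlinarith
    obtain ⟨e1, he1, H1⟩ : ∃ e : ℝ, 0 < e ∧ ∀ t, 0 < t → t ≤ e → 0 ≤ x 1 + t * v 1 := by
      rcases hx1.eq_or_lt with h | h
      · exact ⟨1, one_pos, fun t ht _ => by have := h1 h.symm; nlinarith⟩
      · refine ⟨(x 1) / (|v 1| + 1), div_pos h (by positivity), fun t ht h2 => ?_⟩
        rw [le_div_iff₀ (by positivity)] at h2
        have := neg_abs_le (v 1)
        nlinarith
    refine mem_tanCone_of (e := min e0 e1) (lt_min he0 he1) fun t ht h2 => ⟨?_, ?_⟩
    · simpa using H0 t ht (h2.trans (min_le_left _ _))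
    · simpa using H1 t ht (h2.trans (min_le_right _ _))

lemma exists_nearest {x : P} (hx : x ∈ Q) (w : P) : ∃ p, IsNearest (tanCone Q x) w p := by
  have hc : IsClosed (tanCone Q x) := by
    rw [tan_Q hx]
    refine IsClosed.inter (s₁ := {v : P | x 0 = 2 → v 0 ≤ 0}) (s₂ := {v : P | x 1 = 0 → 0 ≤ v 1})
      ?_ ?_
    · by_cases h : x 0 = 2
      · simpa [h] using isClosed_le c0 (continuous_const (y := (0 : ℝ)))
      · simp [h]
    · by_cases h : x 1 = 0
      · simpa [h] using isClosed_le (continuous_const (y := (0 : ℝ))) c1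
      · simp [h]
  have hne : (tanCone Q x).Nonempty := ⟨0, by rw [tan_Q hx]; simp⟩
  obtain ⟨p, hp, he⟩ := hc.exists_infDist_eq_dist hne w
  refine ⟨p, hp, fun q hq => ?_⟩
  rw [← dist_eq_norm, ← dist_eq_norm, ← he]
  exact Metric.infDist_le_dist_of_mem hq

noncomputable def xs (k : ℕ) : P := !₂[2 / 3 * (1 - (1 / 4) ^ k), 4 / 3 * (1 / 4) ^ k]

lemma xs0 (k : ℕ) : xs k 0 = 2 / 3 * (1 - (1 / 4) ^ k) := by simp [xs]
lemma xs1 (k : ℕ) : xs k 1 = 4 / 3 * (1 / 4) ^ k := by simp [xs]

lemma xs_mem (k : ℕ) : xs k ∈ Q := by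
  have h : (0 : ℝ) < (1 / 4) ^ k := by positivity
  constructor
  · rw [xs0]; linarith
  · rw [xs1]; linarith

lemma tan_xs (k : ℕ) : tanCone Q (xs k) = Set.univ := by
  have h : (0 : ℝ) < (1 / 4) ^ k := by positivity
  rw [tan_Q (xs_mem k)]
  ext v
  simp only [Set.mem_ofPred_eq, Set.mem_univ, iff_true]
  constructor
  · intro h2
    rw [xs0] at h2
    linarith
  · intro h2
    rw [xs1] at h2
    linarith

lemma stat_xs (k : ℕ) : statMeasure Q ff (xs k) ^ 2 = 5 / 4 := by
  have h : {r | ∃ p, IsNearest (tanCone Q (xs k)) (-gradient ff (xs k)) p ∧ r = ‖p‖} = {‖-av‖} := by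
    ext r
    rw [tan_xs, grad_ff]
    constructor
    · rintro ⟨p, hp, rfl⟩
      have := hp.2 (-av) trivial
      rw [sub_self, norm_zero] at this
      have h2 : -av - p = 0 := norm_le_zero_iff.1 this
      rw [sub_eq_zero] at h2
      rw [← h2]
      rfl
    · rintro rfl
      exact ⟨-av, ⟨trivial, fun q _ => by simp⟩, rfl⟩
  rw [statMeasure, h, csInf_singleton, norm_neg, EuclideanSpace.real_norm_sq_eq]
  simp [av, Fin.sum_univ_two]
  norm_num

lemma step (k : ℕ) : IsStep Q ff 1 (1 / 4) (1 / 2) (xs k) (xs (k + 1)) := by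
  have hk : (0 : ℝ) < (1 / 4) ^ k := by positivity
  refine ⟨-av, ?_, k, ?_, ?_, ?_⟩
  · rw [tan_xs, grad_ff]
    exact ⟨trivial, fun q _ => by simp⟩
  · have e : xs k + ((1 : ℝ) * (1 / 4) ^ k) • (-av) = xs (k + 1) := by
      ext i
      fin_cases i
      · simp [xs, av, pow_succ]
        ring
      · simp [xs, av, pow_succ]
        ring
    rw [e]
    exact ⟨xs_mem _, fun q _ => by simp⟩
  · rw [stat_xs, ff_eq, ff_eq, xs0, xs0, xs1, xs1, pow_succ]
    linarith
  · intro i hi z hz
    rw [stat_xs, ff_eq, ff_eq, xs0, xs1]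
    set s : ℝ := (1 / 4) ^ i with hs
    have hs1 : s ≤ 1 := pow_le_one₀ (by norm_num) (by norm_num)
    have hs2 : 4 * (1 / 4 : ℝ) ^ k ≤ s := by
      have : (1 / 4 : ℝ) ^ k ≤ (1 / 4) ^ (i + 1) :=
        pow_le_pow_of_le_one (by norm_num) (by norm_num) hi
      rw [pow_succ] at this
      linarith
    set w : P := xs k + ((1 : ℝ) * s) • (-av) with hw
    have hw0 : w 0 = 2 / 3 * (1 - (1 / 4) ^ k) + s / 2 := by
      simp [hw, xs, av]
      ring
    have hw1 : w 1 = 4 / 3 * (1 / 4) ^ k - s := by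
      simp [hw, xs, av]
      ring
    have hq : (!₂[w 0, 0] : P) ∈ Q := by
      constructor
      · simp only [Matrix.cons_val_zero]
        rw [hw0]
        linarith
      · simp
    have h1 := pow_le_pow_left₀ (norm_nonneg _) (hz.2 _ hq) 2
    rw [EuclideanSpace.real_norm_sq_eq, EuclideanSpace.real_norm_sq_eq] at h1
    simp only [Fin.sum_univ_two, PiLp.sub_apply, Matrix.cons_val_zero, Matrix.cons_val_one,
      sub_self, sub_zero] at h1
    have hz1 := hz.1.2
    have hneg : w 1 < 0 := by rw [hw1]; linarith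
    have h2 : (w 0 - z 0) ^ 2 ≤ 0 := by nlinarith
    have h3 : w 0 = z 0 := by
      have := pow_eq_zero_iff (n := 2) (a := w 0 - z 0) (by norm_num) |>.1
        (le_antisymm h2 (sq_nonneg _))
      linarith
    rw [← h3, hw0]
    linarith

end Concrete

theorem result : ∃ (X : Set (EuclideanSpace ℝ (Fin 2))) (f : EuclideanSpace ℝ (Fin 2) → ℝ)
    (a b c : ℝ) (x : ℕ → EuclideanSpace ℝ (Fin 2)) (p : EuclideanSpace ℝ (Fin 2)),
    X.Nonempty ∧ IsClosed X ∧ Convex ℝ X ∧ ApocalypseFree X ∧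
    ContDiff ℝ 1 f ∧ LocallyLipschitz (gradient f) ∧ ConvexOn ℝ Set.univ f ∧
    x 0 ∈ X ∧ Bornology.IsBounded {z ∈ X | f z ≤ f (x 0)} ∧
    0 < a ∧ 0 < b ∧ b < 1 ∧ 0 < c ∧ c < 1 ∧
    (∀ k, IsStep X f a b c (x k) (x (k + 1))) ∧
    Tendsto x atTop (𝓝 p) ∧ p ∈ X ∧ ¬ IsStationary X f p := by
  refine ⟨Q, ff, 1, 1 / 4, 1 / 2, xs, !₂[2 / 3, 0], ⟨_, xs_mem 0⟩, Q_closed, Q_convex,
    apoc_of_convex Q_convex fun x hx w => exists_nearest hx w, (innerSL ℝ av).contDiff, ?_,
    (innerSL ℝ av).toLinearMap.convexOn convex_univ, xs_mem 0, ?_, one_pos, by norm_num,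
    by norm_num, by norm_num, by norm_num, step, ?_, ?_, ?_⟩
  · have : gradient ff = fun _ => av := funext grad_ff
    rw [this]
    exact (LipschitzWith.const av).locallyLipschitz
  · rw [isBounded_iff_forall_norm_le]
    refine ⟨10, fun z hz => ?_⟩
    obtain ⟨⟨h0, h1⟩, h2⟩ := hz
    rw [ff_eq, ff_eq, xs0, xs1] at h2
    norm_num at h2
    refine abs_le_of_sq_le_sq' ?_ (by norm_num) |>.2
    rw [EuclideanSpace.real_norm_sq_eq, Fin.sum_univ_two]
    nlinarith
  · have h := tendsto_pow_atTop_nhds_zero_of_lt_one (r := (1 / 4 : ℝ)) (by norm_num) (by norm_num)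
    have e : xs = fun k => (!₂[2 / 3, 0] : P) + ((1 / 4 : ℝ) ^ k) • (!₂[-2 / 3, 4 / 3] : P) := by
      funext k
      ext i
      fin_cases i
      · simp [xs]
        ring
      · simp [xs]
        ring
    rw [e]
    simpa using (h.smul_const (!₂[-2 / 3, 4 / 3] : P)).const_add (!₂[2 / 3, 0] : P)
  · constructor
    · simp
      norm_num
    · simp
  · intro h
    have hm : (!₂[2 / 3, 0] : P) ∈ Q := by
      constructor
      · simp
        norm_num
      · simp
    have := h !₂[1, 0] (by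
      rw [tan_Q hm]
      constructor
      · simp
        norm_num
      · simp)
    rw [grad_ff] at this
    simp [av, PiLp.inner_apply, Fin.sum_univ_two] at this
    norm_num at this

end Pool.Agent.Results.MP_7a7a2a_an.Counter
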